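import Mathlib
import Pool.Agent.Helper79.EG.Sum

/-!
# Exponential sums with phase `y log q`: Weyl - van der Corput differencing with explicit constants

The same method as in Helper79/EG (phase `y / q`).
-/

set_option autoImplicit false

namespace Pool.Agent.Helper85.PR

open Finset EG
open Pool.Agent.Helper22.GC (ee ee_add norm_ee conj_ee kusmin_landau)

/-- Iterated (decreasing) differences of `q ↦ - log q`. -/
noncomputable def LG : List ℕ → ℝ → ℝ
  | [], q => - Real.log q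
  | (h :: l), q => LG l q - LG l (q + h)

lemma hasDerivAt_LG : ∀ (l : List ℕ) (q : ℝ), 0 < q →
    HasDerivAt (LG l) (-(E l 1 q)) q
  | [], q, hq => by
    have h1 := (Real.hasDerivAt_log hq.ne').fun_neg
    have e : (fun x : ℝ => - Real.log x) = LG [] := by
      funext x
      simp [LG]
    rw [e] at h1
    refine h1.congr_deriv ?_
    simp [E]
  | (h :: l), q, hq => by
    have h1 := hasDerivAt_LG l q hq
    have h2 := hasDerivAt_LG l (q + h) (by positivity)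
    have h3 : HasDerivAt (fun x => LG l (x + h)) (-(E l 1 (q + h))) q :=
      h2.comp_add_const q (h : ℝ)
    have h4 := h1.sub h3
    have e : (fun x => LG l x) - (fun x => LG l (x + h)) = LG (h :: l) := by
      funext x
      simp [LG]
    rw [e] at h4
    refine h4.congr_deriv ?_
    simp only [E]
    ring

lemma LG_sub (l : List ℕ) (h : ℕ) (q : ℝ) (hq : 0 < q) : ∃ ξ, q ≤ ξ ∧ ξ ≤ q + h ∧
    LG (h :: l) q = h * E l 1 ξ := by
  rcases Nat.eq_zero_or_pos h with rfl | hh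
  · refine ⟨q, le_rfl, by simp, ?_⟩
    simp [LG]
  · have hh' : (0 : ℝ) < h := by exact_mod_cast hh
    obtain ⟨ξ, hξ, hs⟩ := exists_hasDerivAt_eq_slope (LG l) (fun x => -(E l 1 x))
      (a := q) (b := q + h) (by linarith)
      (fun x hx => (hasDerivAt_LG l x (by linarith [hx.1])).continuousAt.continuousWithinAt)
      (fun x hx => hasDerivAt_LG l x (by linarith [hx.1]))
    refine ⟨ξ, hξ.1.le, hξ.2.le, ?_⟩
    simp only [LG]
    rw [eq_div_iff (by linarith)] at hs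
    have e : q + h - q = (h : ℝ) := by ring
    rw [e] at hs
    linarith

/-- Two-sided bounds for the iterated differences. -/
theorem LG_bounds (h : ℕ) (l : List ℕ) (q : ℝ) (hq : 0 < q) :
    h * cf l 1 / (q + (h :: l).sum) ^ (1 + l.length) ≤ LG (h :: l) q ∧
      LG (h :: l) q ≤ h * cf l 1 / q ^ (1 + l.length) := by
  obtain ⟨ξ, h1, h2, h3⟩ := LG_sub l h q hq
  have hξ : 0 < ξ := by linarith
  have h4 := E_bounds l 1 ξ hξ
  rw [h3]
  simp only [List.sum_cons, Nat.cast_add]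
  rw [mul_div_assoc, mul_div_assoc]
  have h0 := cf_nonneg l 1
  have hs : (0 : ℝ) ≤ l.sum := Nat.cast_nonneg _
  constructor
  · refine mul_le_mul_of_nonneg_left (le_trans ?_ h4.1) (by positivity)
    have h5 : ξ + (l.sum : ℝ) ≤ q + (h + l.sum) := by linarith
    gcongr
  · refine mul_le_mul_of_nonneg_left (h4.2.trans ?_) (by positivity)
    gcongr

lemma LG_nonneg (h : ℕ) (l : List ℕ) (q : ℝ) (hq : 0 < q) : 0 ≤ LG (h :: l) q := by
  refine le_trans ?_ (LG_bounds h l q hq).1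
  have := cf_nonneg l 1
  have hs : (0 : ℝ) ≤ (h :: l).sum := Nat.cast_nonneg _
  positivity

/-- The base case: all differences have been taken. -/
theorem base_case {K Q H : ℕ} {y : ℝ} (hHQ : H ≤ Q) (hy : 0 < y)
    (h1 : y * (K + 1) ^ K * H ^ K ≤ Q ^ (K + 1) / 2) {l : List ℕ} (hl : l.length = K)
    (hu : ∀ u ∈ l, 1 ≤ u ∧ u < H) {N a : ℕ} (ha : Q ≤ a) (haN : a + N ≤ 4 * Q) (hQ : 1 ≤ Q) :
    ‖∑ n ∈ Icc 1 N, ee (y * LG l (a + n))‖ ≤
      ((K : ℝ) + 5) ^ (K + 1) * Q ^ (K + 1) / (y * l.prod) := by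
  have hQ0 : (0 : ℝ) < Q := by exact_mod_cast hQ
  have hp : (1 : ℝ) ≤ l.prod := by exact_mod_cast prod_pos' hu
  have hp0 : (0 : ℝ) < l.prod := by linarith
  set θ : ℝ := y * l.prod / ((K + 5) ^ (K + 1) * Q ^ (K + 1)) with hθ
  have hθ0 : 0 < θ := by rw [hθ]; positivity
  have hdiff : ∀ n : ℕ, y * LG l (a + ((n + 1 : ℕ) : ℝ)) - y * LG l (a + n) =
      - (y * LG (1 :: l) (a + n)) := by
    intro n
    simp only [LG]
    push_cast
    rw [← add_assoc]
    ring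
  have hbound : ∀ n : ℕ, 1 ≤ n → n ≤ N → θ ≤ y * LG (1 :: l) (a + n) ∧
      y * LG (1 :: l) (a + n) ≤ 1 / 2 := by
    intro n hn hnN
    have hq0 : (0 : ℝ) < (a : ℝ) + n := by positivity
    have hb := LG_bounds 1 l (a + n) hq0
    have hqQ : (Q : ℝ) ≤ (a : ℝ) + n := by
      have : Q ≤ a + n := by omega
      exact_mod_cast this
    have hqQ' : (a : ℝ) + n ≤ 4 * Q := by
      have : a + n ≤ 4 * Q := by omega
      exact_mod_cast this
    have hlen : 1 + l.length = K + 1 := by rw [hl]; ring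
    rw [hlen] at hb
    have hcf : ((1 : ℕ) : ℝ) * cf l 1 = cf l 1 := by push_cast; ring
    rw [hcf] at hb
    have hc0 := cf_nonneg l 1
    have hc1 := prod_le_cf l 1 le_rfl
    have hc2 := cf_le l 1
    rw [hl] at hc2
    constructor
    · have hs : (a : ℝ) + n + ((1 :: l).sum : ℕ) ≤ (K + 5) * Q := by
        have hs1 := sum_le' hu
        rw [hl] at hs1
        have hs2 : K * H ≤ K * Q := Nat.mul_le_mul_left _ hHQ
        have hs3 : a + n + (1 :: l).sum ≤ (K + 5) * Q := by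
          rw [List.sum_cons]
          nlinarith
        exact_mod_cast hs3
      calc θ = y * (l.prod / ((K + 5) * Q) ^ (K + 1)) := by
            rw [hθ, mul_pow]; ring
        _ ≤ y * (cf l 1 / ((a : ℝ) + n + ((1 :: l).sum : ℕ)) ^ (K + 1)) := by
            gcongr
        _ ≤ y * LG (1 :: l) (a + n) := by
            gcongr
            exact hb.1
    · calc y * LG (1 :: l) (a + n) ≤ y * (cf l 1 / ((a : ℝ) + n) ^ (K + 1)) := by
            gcongr
            exact hb.2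
        _ ≤ y * ((l.prod * (K + 1) ^ K) / (Q : ℝ) ^ (K + 1)) := by
            have e : (((1 : ℕ) : ℝ) + K) = K + 1 := by push_cast; ring
            rw [e] at hc2
            gcongr
        _ ≤ y * ((H ^ K * (K + 1) ^ K) / (Q : ℝ) ^ (K + 1)) := by
            have h3 := wt_eq hu
            rw [hl] at h3
            have h4 := one_le_wt hu
            have h5 : (l.prod : ℝ) ≤ H ^ K := by
              rw [← h3]
              nlinarith
            gcongr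
        _ = (y * (K + 1) ^ K * H ^ K) / (Q : ℝ) ^ (K + 1) := by ring
        _ ≤ (Q ^ (K + 1) / 2) / (Q : ℝ) ^ (K + 1) := by gcongr
        _ = 1 / 2 := by field_simp
  have hmain := kusmin_landau (f := fun n : ℕ => y * LG l (a + n)) (a := 1) (b := N + 1) (θ := θ)
    (m := -1) hθ0 (by
      intro n hn hnN
      have e1 := hdiff n
      have e2 := hdiff (n + 1)
      have e3 : ((n + 1 + 1 : ℕ) : ℝ) = ((n + 2 : ℕ) : ℝ) := rfl
      rw [e3] at e2
      rw [e1, e2]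
      have h6 := LG_nonneg 1 (1 :: l) ((a : ℝ) + n) (by positivity)
      have h7 : LG (1 :: 1 :: l) ((a : ℝ) + n) =
          LG (1 :: l) ((a : ℝ) + n) - LG (1 :: l) ((a : ℝ) + ((n + 1 : ℕ) : ℝ)) := by
        conv_lhs => rw [LG]
        push_cast
        rw [← add_assoc]
      rw [h7] at h6
      nlinarith)
    (by
      intro n hn hnN
      rw [hdiff n]
      have := hbound n hn (by omega)
      push_cast
      linarith)
    (by
      intro n hn hnN
      rw [hdiff n]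
      have := hbound n hn (by omega)
      push_cast
      linarith)
  have hIco : Ico 1 (N + 1) = Icc 1 N := by
    ext x
    simp only [mem_Ico, mem_Icc]
    omega
  rw [hIco] at hmain
  refine hmain.trans (le_of_eq ?_)
  rw [hθ, one_div_div]

/-- One step of the induction. -/
theorem step_case {Q H : ℕ} {y g : ℝ} (hH : 1 ≤ H) (hHQ : H ≤ Q) (hg : 1 ≤ H * g)
    {k : ℕ} (ih : ∀ l : List ℕ, l.length = k + 1 → (∀ u ∈ l, 1 ≤ u ∧ u < H) → ∀ N a : ℕ,
      Q ≤ a → a + N ≤ 4 * Q →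
      ‖∑ n ∈ Icc 1 N, ee (y * LG l (a + n))‖ ≤ 17 * Q * g * √(wt H l))
    (l : List ℕ) (hl : l.length = k) (hu : ∀ u ∈ l, 1 ≤ u ∧ u < H) (N a : ℕ)
    (ha : Q ≤ a) (haN : a + N ≤ 4 * Q) :
    ‖∑ n ∈ Icc 1 N, ee (y * LG l (a + n))‖ ≤ 17 * Q * √g * √(wt H l) := by
  have hH0 : (0 : ℝ) < H := by exact_mod_cast hH
  have hQ0 : (0 : ℝ) < Q := by
    have : 1 ≤ Q := hH.trans hHQ
    exact_mod_cast this
  have hg0 : 0 < g := by
    by_contra h
    push Not at h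
    have : (H : ℝ) * g ≤ 0 := mul_nonpos_of_nonneg_of_nonpos hH0.le h
    linarith
  set w := wt H l with hw
  have hw1 : 1 ≤ w := one_le_wt hu
  have h1 := VdC.vdc_nat (fun _ => 1) (fun _ => by simp) (fun n : ℕ => y * LG l (a + n)) N H hH
  have h2 : ∀ u ∈ Ico 1 H, ‖∑ n ∈ Icc 1 N, (if n + u ≤ N then (1 : ℂ) * (starRingEnd ℂ) 1 else 0) *
      ee (y * LG l (a + ((n + u : ℕ) : ℝ)) - y * LG l (a + n))‖ ≤
        17 * Q * g * √w * √((H : ℝ) / u) := by
    intro u hu'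
    rw [Finset.mem_Ico] at hu'
    have e1 : ∑ n ∈ Icc 1 N, (if n + u ≤ N then (1 : ℂ) * (starRingEnd ℂ) 1 else 0) *
        ee (y * LG l (a + ((n + u : ℕ) : ℝ)) - y * LG l (a + n)) =
        (starRingEnd ℂ) (∑ n ∈ Icc 1 (N - u), ee (y * LG (u :: l) (a + n))) := by
      rw [map_sum]
      have e2 : Icc 1 (N - u) = (Icc 1 N).filter (fun n => n + u ≤ N) := by
        ext x
        simp only [Finset.mem_filter, mem_Icc]
        omega
      rw [e2, Finset.sum_filter]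
      apply Finset.sum_congr rfl
      intro n _
      split_ifs
      · rw [conj_ee, map_one, one_mul, one_mul]
        congr 1
        simp only [LG]
        push_cast
        rw [← add_assoc]
        ring
      · rw [zero_mul]
    rw [e1, RCLike.norm_conj]
    refine (ih (u :: l) (by simp [hl]) ?_ (N - u) a ha (by omega)).trans ?_
    · intro v hv
      rcases List.mem_cons.mp hv with rfl | hv
      · exact hu'
      · exact hu v hv
    · rw [wt_cons, ← hw, Real.sqrt_mul (by positivity)]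
      apply le_of_eq
      ring
  have h3 : ∑ u ∈ Ico 1 H, ‖∑ n ∈ Icc 1 N, (if n + u ≤ N then (1 : ℂ) * (starRingEnd ℂ) 1 else 0) *
      ee (y * LG l (a + ((n + u : ℕ) : ℝ)) - y * LG l (a + n))‖ ≤
        34 * Q * g * √w * H := by
    refine (Finset.sum_le_sum h2).trans ?_
    rw [← Finset.mul_sum]
    have := sum_inv_sqrt H
    calc 17 * Q * g * √w * ∑ u ∈ Ico 1 H, √((H : ℝ) / u) ≤ 17 * Q * g * √w * (2 * H) := by
          gcongr
      _ = 34 * Q * g * √w * H := by ring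
  set S := ‖∑ n ∈ Icc 1 N, ee (y * LG l (a + n))‖ with hS
  have h4 : ‖∑ n ∈ Icc 1 N, (1 : ℂ) * ee (y * LG l (a + n))‖ = S := by
    simp only [one_mul, hS]
  have hN : (N : ℝ) ≤ 3 * Q := by
    have : N ≤ 3 * Q := by omega
    exact_mod_cast this
  have hHQ' : (H : ℝ) ≤ Q := by exact_mod_cast hHQ
  have hsw : 1 ≤ √w := by
    rw [Real.one_le_sqrt]
    exact hw1
  have h5 : (H : ℝ) * S ^ 2 ≤ (4 * Q) * (3 * Q + 2 * (34 * Q * g * √w * H)) := by
    have h6 : (0 : ℝ) ≤ ∑ u ∈ Ico 1 H, ‖∑ n ∈ Icc 1 N,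
        (if n + u ≤ N then (1 : ℂ) * (starRingEnd ℂ) 1 else 0) *
      ee (y * LG l (a + ((n + u : ℕ) : ℝ)) - y * LG l (a + n))‖ :=
      Finset.sum_nonneg (fun _ _ => norm_nonneg _)
    have h7 : (N : ℝ) + H ≤ 4 * Q := by linarith
    obtain ⟨R, hR⟩ : ∃ R : ℝ, R = ∑ u ∈ Ico 1 H, ‖∑ n ∈ Icc 1 N,
        (if n + u ≤ N then (1 : ℂ) * (starRingEnd ℂ) 1 else 0) *
      ee (y * LG l (a + ((n + u : ℕ) : ℝ)) - y * LG l (a + n))‖ := ⟨_, rfl⟩
    rw [← hR] at h6 h3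
    have h1' : (H : ℝ) * S ^ 2 ≤ (N + H) * (N + 2 * R) := by
      rw [hR, ← h4]
      exact h1
    refine h1'.trans (mul_le_mul h7 (by linarith) (by positivity) (by positivity))
  have h8 : S ^ 2 ≤ (17 * Q * √g * √w) ^ 2 := by
    have h9 : (17 * Q * √g * √w) ^ 2 = 289 * Q ^ 2 * g * w := by
      rw [mul_pow, mul_pow, mul_pow, Real.sq_sqrt hg0.le, Real.sq_sqrt (by linarith)]
      norm_num
    rw [h9]
    have h10 : √w ≤ w := by
      have : √w ^ 2 = w := Real.sq_sqrt (by linarith)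
      nlinarith
    have h11 : (H : ℝ) * S ^ 2 ≤ H * (289 * Q ^ 2 * g * w) := by
      refine h5.trans ?_
      have h12 : (1 : ℝ) ≤ H * g * w := by
        calc (1 : ℝ) ≤ H * g := hg
          _ = H * g * 1 := by ring
          _ ≤ H * g * w := by gcongr
      calc 4 * Q * (3 * Q + 2 * (34 * Q * g * √w * H))
          = 12 * Q ^ 2 * 1 + 272 * Q ^ 2 * (H * g) * √w := by ring
        _ ≤ 12 * Q ^ 2 * (H * g * w) + 272 * Q ^ 2 * (H * g) * w := by gcongr
        _ = 284 * Q ^ 2 * (H * g * w) := by ring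
        _ ≤ 289 * Q ^ 2 * (H * g * w) := by gcongr; norm_num
        _ = H * (289 * Q ^ 2 * g * w) := by ring
    exact le_of_mul_le_mul_left h11 hH0
  exact (pow_le_pow_iff_left₀ (norm_nonneg _) (by positivity) (by norm_num)).mp h8

/-- The exponential sum with phase `y log q`. -/
theorem weyl {K Q H : ℕ} {y G : ℝ} (hH : 1 ≤ H) (hHQ : H ≤ Q) (hy : 0 < y)
    (h1 : y * (K + 1) ^ K * H ^ K ≤ Q ^ (K + 1) / 2)
    (h2 : ((K : ℝ) + 5) ^ (K + 1) * Q ^ K / (y * H ^ K) ≤ G ^ 2) (hG0 : 0 < G)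
    (hG1 : G ≤ 1) (hG2 : 1 ≤ H * G) (N a : ℕ) (ha : Q ≤ a) (haN : a + N ≤ 4 * Q) :
    ‖∑ n ∈ Icc 1 N, ee (y * -Real.log (a + n))‖ ≤ 17 * Q * G ^ ((1 / 2 : ℝ) ^ K) := by
  have hH0 : (0 : ℝ) < H := by exact_mod_cast hH
  have hQ1 : 1 ≤ Q := hH.trans hHQ
  have hQ0 : (0 : ℝ) < Q := by exact_mod_cast hQ1
  have key : ∀ j : ℕ, ∀ k : ℕ, k + j = K → ∀ l : List ℕ, l.length = k →
      (∀ u ∈ l, 1 ≤ u ∧ u < H) → ∀ N a : ℕ, Q ≤ a → a + N ≤ 4 * Q →
      ‖∑ n ∈ Icc 1 N, ee (y * LG l (a + n))‖ ≤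
        17 * Q * G ^ ((1 / 2 : ℝ) ^ j) * √(wt H l) := by
    intro j
    induction j with
    | zero =>
      intro k hk l hl hu N a ha haN
      have hk' : k = K := by omega
      subst hk'
      have hb := base_case hHQ hy h1 hl hu ha haN hQ1
      have hw := wt_eq hu
      rw [hl] at hw
      have hw1 := one_le_wt hu
      have hp : (0 : ℝ) < l.prod := by
        have := prod_pos' hu
        exact_mod_cast this
      have ht : ‖∑ n ∈ Icc 1 N, ee (y * LG l (a + n))‖ ≤ 3 * Q := by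
        refine (norm_sum_le _ _).trans ?_
        simp only [norm_ee, Finset.sum_const, Nat.card_Icc, nsmul_eq_mul, mul_one]
        have : N + 1 - 1 ≤ 3 * Q := by omega
        exact_mod_cast this
      have hb2 : ‖∑ n ∈ Icc 1 N, ee (y * LG l (a + n))‖ ≤ Q * G ^ 2 * wt H l := by
        refine hb.trans ?_
        calc ((k : ℝ) + 5) ^ (k + 1) * Q ^ (k + 1) / (y * l.prod)
            = Q * (((k : ℝ) + 5) ^ (k + 1) * Q ^ k / (y * H ^ k)) * wt H l := by
              rw [← hw]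
              have : wt H l ≠ 0 := by positivity
              field_simp
              ring
          _ ≤ Q * G ^ 2 * wt H l := by gcongr
      have h3 : ‖∑ n ∈ Icc 1 N, ee (y * LG l (a + n))‖ ^ 2 ≤
          (17 * Q * G * √(wt H l)) ^ 2 := by
        calc ‖∑ n ∈ Icc 1 N, ee (y * LG l (a + n))‖ ^ 2
            = ‖∑ n ∈ Icc 1 N, ee (y * LG l (a + n))‖ *
              ‖∑ n ∈ Icc 1 N, ee (y * LG l (a + n))‖ := by ring
          _ ≤ (3 * Q) * (Q * G ^ 2 * wt H l) := by gcongr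
          _ = 3 * (Q ^ 2 * G ^ 2 * wt H l) := by ring
          _ ≤ 289 * (Q ^ 2 * G ^ 2 * wt H l) := by gcongr; norm_num
          _ = (17 * Q * G) ^ 2 * √(wt H l) ^ 2 := by
              rw [Real.sq_sqrt (by positivity)]; ring
          _ = (17 * Q * G * √(wt H l)) ^ 2 := by ring
      have h4 := (pow_le_pow_iff_left₀ (norm_nonneg _) (by positivity) (by norm_num)).mp h3
      simpa using h4
    | succ j ih =>
      intro k hk l hl hu N a ha haN
      have hgj : G ≤ G ^ ((1 / 2 : ℝ) ^ j) := by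
        calc G = G ^ (1 : ℝ) := (Real.rpow_one G).symm
          _ ≤ G ^ ((1 / 2 : ℝ) ^ j) :=
            Real.rpow_le_rpow_of_exponent_ge hG0 hG1 (pow_le_one₀ (by norm_num) (by norm_num))
      have h3 := step_case (g := G ^ ((1 / 2 : ℝ) ^ j)) hH hHQ
        (hG2.trans (by gcongr)) (k := k) (fun l' hl' hu' N' a' ha' haN' =>
          ih (k + 1) (by omega) l' hl' hu' N' a' ha' haN') l hl hu N a ha haN
      refine h3.trans (le_of_eq ?_)
      rw [Real.sqrt_eq_rpow, ← Real.rpow_mul hG0.le, pow_succ]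
  have h3 := key K 0 (by omega) [] rfl (by simp) N a ha haN
  have e1 : √(wt H []) = 1 := by simp [wt]
  rw [e1, mul_one] at h3
  exact h3

/-- The bound with explicit conditions, at least one differencing step. -/
theorem W_bound {K Q : ℕ} (hK : 1 ≤ K) (hQ1' : 1 ≤ Q) (g1 : 2 * ((K : ℝ) + 1) ^ K ≤ (Q : ℝ) ^ (1 / 4 : ℝ))
    (g2 : ((K : ℝ) + 5) ^ (K + 1) * 2 ^ K ≤ (Q : ℝ) ^ (1 / 12 : ℝ)) (g3 : 2 ≤ (Q : ℝ) ^ (1 / 6 : ℝ))
    (g4 : 17 ≤ (Q : ℝ) ^ (1 / 12 * (1 / 2 : ℝ) ^ K)) {y : ℝ} (hy1 : (Q : ℝ) ^ (3 / 4 : ℝ) ≤ y)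
    (hy2 : y ≤ (Q : ℝ) ^ ((K : ℝ) / 2 + 3 / 4)) (N a : ℕ) (ha : Q ≤ a) (haN : a + N ≤ 4 * Q) :
    ‖∑ n ∈ Icc 1 N, ee (y * -Real.log (a + n))‖ ≤ (Q : ℝ) ^ (1 - 1 / 4 * (1 / 2 : ℝ) ^ K) := by
  have hKK : (0 : ℝ) < (1 / 2 : ℝ) ^ K := by positivity
  have hQr : (1 : ℝ) ≤ Q := by exact_mod_cast hQ1'
  have hQ0 : (0 : ℝ) < Q := by linarith
  have hy : 0 < y := lt_of_lt_of_le (by positivity) hy1
  have hK0 : (0 : ℝ) < K := by exact_mod_cast hK
  set r : ℝ := ((Q : ℝ) ^ (3 / 4 : ℝ) / y) ^ (1 / (K : ℝ)) with hr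
  have hr0 : 0 < r := by rw [hr]; positivity
  have hrK : r ^ K = (Q : ℝ) ^ (3 / 4 : ℝ) / y := by
    rw [hr, ← Real.rpow_natCast, ← Real.rpow_mul (by positivity), one_div,
      inv_mul_cancel₀ hK0.ne', Real.rpow_one]
  have hr1 : r ≤ 1 := by
    rw [hr]
    apply Real.rpow_le_one (by positivity) _ (by positivity)
    rw [div_le_one hy]
    exact hy1
  have hr2 : (Q : ℝ) ^ (-(1 / 2) : ℝ) ≤ r := by
    have e1 : (Q : ℝ) ^ (-(1 / 2) : ℝ) = ((Q : ℝ) ^ (-((K : ℝ) / 2))) ^ (1 / (K : ℝ)) := by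
      rw [← Real.rpow_mul hQ0.le]
      congr 1
      field_simp
    rw [e1, hr]
    apply Real.rpow_le_rpow (by positivity) _ (by positivity)
    rw [le_div_iff₀ hy]
    calc (Q : ℝ) ^ (-((K : ℝ) / 2)) * y ≤ (Q : ℝ) ^ (-((K : ℝ) / 2)) * (Q : ℝ) ^ ((K : ℝ) / 2 + 3 / 4) := by
          gcongr
      _ = (Q : ℝ) ^ (3 / 4 : ℝ) := by
          rw [← Real.rpow_add hQ0]
          congr 1
          ring
  set Z : ℝ := Q * r with hZ
  have hZ0 : 0 < Z := by positivity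
  have hZQ : Z ≤ Q := by rw [hZ]; nlinarith
  have hZ1 : (Q : ℝ) ^ (1 / 2 : ℝ) ≤ Z := by
    calc (Q : ℝ) ^ (1 / 2 : ℝ) = Q * (Q : ℝ) ^ (-(1 / 2) : ℝ) := by
          rw [← Real.rpow_one_add' hQ0.le (by norm_num)]
          norm_num
      _ ≤ Q * r := by gcongr
  have hZone : 1 ≤ Z := le_trans (Real.one_le_rpow hQr (by norm_num)) hZ1
  set H : ℕ := ⌊Z⌋₊ with hH
  have hH1 : 1 ≤ H := by
    rw [hH]
    exact (Nat.one_le_floor_iff Z).mpr hZone
  have hHZ : (H : ℝ) ≤ Z := Nat.floor_le hZ0.le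
  have hHZ2 : Z / 2 ≤ H := by
    have h1 := Nat.lt_floor_add_one Z
    rw [← hH] at h1
    have h2 : (1 : ℝ) ≤ H := by exact_mod_cast hH1
    linarith
  have hHQ : H ≤ Q := by
    have : (H : ℝ) ≤ Q := hHZ.trans hZQ
    exact_mod_cast this
  have hZK : y * Z ^ K = (Q : ℝ) ^ ((K : ℝ) + 3 / 4) := by
    rw [hZ, mul_pow, hrK, Real.rpow_add hQ0, Real.rpow_natCast]
    field_simp
  have hsplit : (Q : ℝ) ^ ((K : ℝ) + 3 / 4) * (Q : ℝ) ^ (1 / 4 : ℝ) = (Q : ℝ) ^ (K + 1) := by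
    rw [← Real.rpow_add hQ0, ← Real.rpow_natCast]
    congr 1
    push_cast
    ring
  set G : ℝ := (Q : ℝ) ^ (-(1 / 3) : ℝ) with hG
  have hG0 : 0 < G := by positivity
  have hG1 : G ≤ 1 := by
    rw [hG]
    exact Real.rpow_le_one_of_one_le_of_nonpos hQr (by norm_num)
  have c1 : y * (K + 1) ^ K * H ^ K ≤ (Q : ℝ) ^ (K + 1) / 2 := by
    calc y * (K + 1) ^ K * H ^ K ≤ y * (K + 1) ^ K * Z ^ K := by gcongr
      _ = (y * Z ^ K) * (K + 1) ^ K := by ring
      _ = (Q : ℝ) ^ ((K : ℝ) + 3 / 4) * (2 * (K + 1) ^ K) / 2 := by rw [hZK]; ring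
      _ ≤ (Q : ℝ) ^ ((K : ℝ) + 3 / 4) * (Q : ℝ) ^ (1 / 4 : ℝ) / 2 := by gcongr
      _ = (Q : ℝ) ^ (K + 1) / 2 := by rw [hsplit]
  have c2 : ((K : ℝ) + 5) ^ (K + 1) * Q ^ K / (y * H ^ K) ≤ G ^ 2 := by
    have h1 : (Q : ℝ) ^ ((K : ℝ) + 3 / 4) / 2 ^ K ≤ y * H ^ K := by
      calc (Q : ℝ) ^ ((K : ℝ) + 3 / 4) / 2 ^ K = y * (Z / 2) ^ K := by
            rw [← hZK, div_pow]; ring
        _ ≤ y * H ^ K := by gcongr
    rw [div_le_iff₀ (by positivity)]
    calc ((K : ℝ) + 5) ^ (K + 1) * Q ^ K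
        = (((K : ℝ) + 5) ^ (K + 1) * 2 ^ K) * Q ^ K / 2 ^ K := by field_simp
      _ ≤ (Q : ℝ) ^ (1 / 12 : ℝ) * Q ^ K / 2 ^ K := by gcongr
      _ = G ^ 2 * ((Q : ℝ) ^ ((K : ℝ) + 3 / 4) / 2 ^ K) := by
          have : (Q : ℝ) ^ (1 / 12 : ℝ) * Q ^ K = G ^ 2 * (Q : ℝ) ^ ((K : ℝ) + 3 / 4) := by
            rw [hG, ← Real.rpow_natCast ((Q : ℝ) ^ (-(1 / 3) : ℝ)) 2, ← Real.rpow_natCast (Q : ℝ) K,
              ← Real.rpow_mul hQ0.le, ← Real.rpow_add hQ0, ← Real.rpow_add hQ0]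
            congr 1
            push_cast
            ring
          rw [this]
          ring
      _ ≤ G ^ 2 * (y * H ^ K) := by gcongr
  have c3 : 1 ≤ (H : ℝ) * G := by
    calc (1 : ℝ) ≤ (Q : ℝ) ^ (1 / 6 : ℝ) / 2 := by linarith
      _ = ((Q : ℝ) ^ (1 / 2 : ℝ) / 2) * G := by
          have : (Q : ℝ) ^ (1 / 6 : ℝ) = (Q : ℝ) ^ (1 / 2 : ℝ) * G := by
            rw [hG, ← Real.rpow_add hQ0]
            norm_num
          rw [this]
          ring
      _ ≤ (Z / 2) * G := by gcongr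
      _ ≤ H * G := by gcongr
  refine (weyl hH1 hHQ hy c1 c2 hG0 hG1 c3 N a ha haN).trans ?_
  calc 17 * (Q : ℝ) * G ^ ((1 / 2 : ℝ) ^ K)
      ≤ (Q : ℝ) ^ (1 / 12 * (1 / 2 : ℝ) ^ K) * Q * G ^ ((1 / 2 : ℝ) ^ K) := by gcongr
    _ = (Q : ℝ) ^ (1 - 1 / 4 * (1 / 2 : ℝ) ^ K) := by
        rw [hG, ← Real.rpow_mul hQ0.le]
        nth_rewrite 2 [← Real.rpow_one (Q : ℝ)]
        rw [← Real.rpow_add hQ0, ← Real.rpow_add hQ0]
        congr 1
        ring

/-- No differencing. -/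
theorem W_zero {Q : ℕ} (hQ : 1 ≤ Q) {y : ℝ} (hy : 0 < y) (hy1 : y ≤ Q / 2) (N a : ℕ) (ha : Q ≤ a)
    (haN : a + N ≤ 4 * Q) : ‖∑ n ∈ Icc 1 N, ee (y * -Real.log (a + n))‖ ≤ 5 * Q / y := by
  have h := base_case (K := 0) (Q := Q) (H := Q) (y := y) le_rfl hy (by simpa using hy1) (l := [])
    rfl (by simp) ha haN hQ
  simpa [LG] using h

end Pool.Agent.Helper85.PR
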