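import Mathlib
import Pool.Agent.Helper85.PR.Weyl

/-!
# The uniform Weyl bound: `|∑ (a+n)^(it)| ≤ Q^(1 - (log t)^(-1/2))` for `exp (4 log t / loglog t) ≤ Q ≤ t²`
-/

set_option autoImplicit false

namespace Pool.Agent.Helper85.PR

open Finset EG
open Pool.Agent.Helper22.GC (ee ee_add norm_ee conj_ee kusmin_landau)

/-- the elementary inequalities which hold for large `ℓ = log t` -/
structure Big (ℓ : ℝ) : Prop where
  l4 : 4 ≤ Real.log ℓ
  l3 : 12 * Real.log ℓ ^ 3 ≤ ℓ
  l65 : 18 * Real.log ℓ ≤ ℓ ^ (0.65 : ℝ)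
  l15 : 8 ≤ ℓ ^ (0.15 : ℝ)

lemma big_eventually : ∀ᶠ ℓ : ℝ in Filter.atTop, Big ℓ := by
  have h1 := Real.tendsto_log_atTop.eventually_ge_atTop 4
  have h2 : ∀ᶠ ℓ : ℝ in Filter.atTop, 12 * Real.log ℓ ^ 3 ≤ ℓ := by
    have := (Real.isLittleO_pow_log_id_atTop (n := 3)).bound (show (0 : ℝ) < 1 / 12 by norm_num)
    filter_upwards [this, Filter.eventually_ge_atTop 1] with x hx hx1
    have h3 : 0 ≤ Real.log x := Real.log_nonneg hx1
    simp only [id, Real.norm_eq_abs] at hx
    rw [abs_of_nonneg (by positivity), abs_of_nonneg (by linarith)] at hx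
    linarith
  have h3 : ∀ᶠ ℓ : ℝ in Filter.atTop, 18 * Real.log ℓ ≤ ℓ ^ (0.65 : ℝ) := by
    have := (isLittleO_log_rpow_atTop (r := 0.65) (by norm_num)).bound (show (0 : ℝ) < 1 / 18 by norm_num)
    filter_upwards [this, Filter.eventually_ge_atTop 1] with x hx hx1
    have h3 : 0 ≤ Real.log x := Real.log_nonneg hx1
    simp only [Real.norm_eq_abs] at hx
    rw [abs_of_nonneg (by positivity), abs_of_nonneg (by positivity)] at hx
    linarith
  have h4 := (tendsto_rpow_atTop (show (0 : ℝ) < 0.15 by norm_num)).eventually_ge_atTop 8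
  filter_upwards [h1, h2, h3, h4] with x a b c d
  exact ⟨a, b, c, d⟩

/-- The uniform bound. -/
theorem W_unif {t : ℝ} (ht : 1 < t) (hB : Big (Real.log t)) (Q : ℕ)
    (hQ1 : Real.exp (4 * Real.log t / Real.log (Real.log t)) ≤ Q) (hQ2 : (Q : ℝ) ≤ t ^ 2)
    (N a : ℕ) (ha : Q ≤ a) (haN : a + N ≤ 4 * Q) :
    ‖∑ n ∈ Icc 1 N, ee (t / (2 * Real.pi) * -Real.log (a + n))‖ ≤
      (Q : ℝ) ^ (1 - Real.log t ^ (-(1 / 2) : ℝ)) := by
  set ℓ := Real.log t with hℓ
  set lam := Real.log ℓ with hlam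
  obtain ⟨hl4, hl3, hl65, hl15⟩ := hB
  rw [← hlam] at hl4 hl3 hl65
  have hℓ0 : 0 < ℓ := Real.log_pos ht
  have ht0 : 0 < t := by linarith
  have hlam0 : 0 < lam := by linarith
  have hℓexp : Real.exp lam = ℓ := Real.exp_log hℓ0
  have hℓ16 : 16 ≤ ℓ := by
    have : lam ≤ lam ^ 3 := by nlinarith [sq_nonneg (lam - 1), sq_nonneg lam]
    nlinarith
  have hQ0 : (0 : ℝ) < Q := lt_of_lt_of_le (Real.exp_pos _) hQ1
  have hQN1 : 1 ≤ Q := by exact_mod_cast hQ0
  set L := Real.log Q with hL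
  have hLexp : Real.exp L = Q := Real.exp_log hQ0
  have hL1 : 4 * ℓ / lam ≤ L := (Real.le_log_iff_exp_le hQ0).2 hQ1
  have hL2 : L ≤ 2 * ℓ := by
    have := Real.log_le_log hQ0 hQ2
    rw [Real.log_pow] at this
    push_cast at this
    exact this
  have hLlam : 48 * lam ^ 2 ≤ L := by
    refine le_trans ?_ hL1
    rw [le_div_iff₀ hlam0]
    nlinarith
  have hL0 : 768 ≤ L := by nlinarith
  have hpi : (3 : ℝ) < Real.pi := Real.pi_gt_three
  have hpi2 : Real.pi < 4 := by linarith [Real.pi_lt_d2]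
  set y := t / (2 * Real.pi) with hy
  have hy0 : 0 < y := by positivity
  have hrp : ∀ x : ℝ, (Q : ℝ) ^ x = Real.exp (L * x) := fun x => by
    rw [Real.rpow_def_of_pos hQ0, hL]
  have hhalf : ℓ ^ (-(1 / 2) : ℝ) ≤ 1 / 4 := by
    have h1 : (4 : ℝ) ≤ ℓ ^ (1 / 2 : ℝ) := by
      rw [← Real.sqrt_eq_rpow]
      exact Real.le_sqrt_of_sq_le (by linarith)
    rw [Real.rpow_neg hℓ0.le, ← one_div]
    exact one_div_le_one_div_of_le (by norm_num) h1
  rcases le_or_gt y ((Q : ℝ) ^ (3 / 4 : ℝ)) with hc | hc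
  · -- no differencing
    have h1 : y ≤ Q / 2 := by
      refine hc.trans ?_
      rw [hrp]
      have h2 : (Q : ℝ) / 2 = Real.exp (L - Real.log 2) := by
        rw [Real.exp_sub, hLexp, Real.exp_log (by norm_num)]
      rw [h2]
      apply Real.exp_le_exp.2
      have := Real.log_two_lt_d9
      linarith
    refine (W_zero hQN1 hy0 h1 N a ha haN).trans ?_
    have h2 : Real.exp (L / 2) ≤ t := by
      have h3 : Real.exp (L / 2) ≤ Real.exp ℓ := Real.exp_le_exp.2 (by linarith)
      rwa [hℓ, Real.exp_log ht0] at h3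
    calc 5 * (Q : ℝ) / y = 10 * Real.pi * Q / t := by
          rw [hy]; field_simp; ring
      _ ≤ 40 * Q / Real.exp (L / 2) := by
          apply div_le_div₀ (by positivity) _ (by positivity) h2
          apply mul_le_mul_of_nonneg_right _ hQ0.le
          linarith
      _ = Real.exp (Real.log 40 + L / 2) := by
          rw [Real.exp_add, Real.exp_log (by norm_num), mul_div_assoc]
          congr 1
          rw [div_eq_iff (Real.exp_ne_zero _), ← Real.exp_add, add_halves, hLexp]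
      _ ≤ (Q : ℝ) ^ (1 - ℓ ^ (-(1 / 2) : ℝ)) := by
          rw [hrp]
          apply Real.exp_le_exp.2
          have h5 : Real.log 40 ≤ 40 := by
            have := Real.log_le_sub_one_of_pos (show (0 : ℝ) < 40 by norm_num)
            linarith
          nlinarith
  · -- `K` differencing steps
    set K : ℕ := ⌈2 * ℓ / L⌉₊ with hK
    have hLpos : 0 < L := by linarith
    have hK1 : 1 ≤ K := by
      rw [hK]
      exact Nat.one_le_ceil_iff.2 (by positivity)
    have hKge : 2 * ℓ / L ≤ K := Nat.le_ceil _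
    have hKle : (K : ℝ) ≤ lam / 2 + 1 := by
      have h1 : (K : ℝ) < 2 * ℓ / L + 1 := Nat.ceil_lt_add_one (by positivity)
      have h2 : 2 * ℓ / L ≤ lam / 2 := by
        rw [div_le_iff₀ hLpos]
        rw [div_le_iff₀ hlam0] at hL1
        nlinarith
      linarith
    have hK0 : (0 : ℝ) ≤ K := Nat.cast_nonneg _
    have hbase : Real.log (2 * (K + 5)) ≤ 4 * lam := by
      have h1 := Real.log_le_sub_one_of_pos (show (0 : ℝ) < 2 * ((K : ℝ) + 5) by positivity)
      linarith
    have hmain : ((K : ℝ) + 1) * Real.log (2 * (K + 5)) ≤ L / 12 := by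
      calc ((K : ℝ) + 1) * Real.log (2 * (K + 5)) ≤ lam * (4 * lam) := by
            apply mul_le_mul (by linarith) hbase
            · apply Real.log_nonneg; linarith
            · linarith
        _ ≤ L / 12 := by nlinarith
    have hpow : (2 * ((K : ℝ) + 5)) ^ (K + 1) ≤ Real.exp (L / 12) := by
      have h1 : (2 * ((K : ℝ) + 5)) ^ (K + 1) = Real.exp (((K : ℝ) + 1) * Real.log (2 * (K + 5))) := by
        rw [mul_comm ((K : ℝ) + 1) (Real.log (2 * (K + 5))), Real.exp_mul, Real.exp_log (by positivity)]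
        rw [show (K : ℝ) + 1 = ((K + 1 : ℕ) : ℝ) by push_cast; ring, Real.rpow_natCast]
      rw [h1]
      exact Real.exp_le_exp.2 hmain
    have h2K : (2 : ℝ) ^ K ≤ 2 * ℓ ^ (0.35 : ℝ) := by
      have h1 : (2 : ℝ) ^ K = Real.exp (Real.log 2 * K) := by
        rw [Real.exp_mul, Real.exp_log (by norm_num), Real.rpow_natCast]
      rw [h1]
      have h3 : 2 * ℓ ^ (0.35 : ℝ) = Real.exp (Real.log 2 + lam * 0.35) := by
        rw [Real.exp_add, Real.exp_log (by norm_num), Real.rpow_def_of_pos hℓ0]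
      rw [h3]
      apply Real.exp_le_exp.2
      have h4 := Real.log_two_lt_d9
      have h5 := Real.log_two_gt_d9
      nlinarith
    have hℓ35 : 0 < ℓ ^ (0.35 : ℝ) := by positivity
    have hsplit : ℓ ^ (0.65 : ℝ) * ℓ ^ (0.35 : ℝ) = ℓ := by
      rw [← Real.rpow_add hℓ0]; norm_num
    have hsplit2 : ℓ ^ (0.15 : ℝ) * ℓ ^ (0.35 : ℝ) = ℓ ^ (1 / 2 : ℝ) := by
      rw [← Real.rpow_add hℓ0]; norm_num
    have hW := W_bound (K := K) (Q := Q) hK1 hQN1 (by
        rw [hrp]
        calc 2 * ((K : ℝ) + 1) ^ K ≤ (2 * ((K : ℝ) + 5)) ^ (K + 1) := by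
              rw [pow_succ]
              calc 2 * ((K : ℝ) + 1) ^ K ≤ 2 * (2 * ((K : ℝ) + 5)) ^ K := by gcongr; linarith
                _ = (2 * ((K : ℝ) + 5)) ^ K * 2 := by ring
                _ ≤ (2 * ((K : ℝ) + 5)) ^ K * (2 * (K + 5)) := by gcongr; linarith
          _ ≤ Real.exp (L / 12) := hpow
          _ ≤ Real.exp (L * (1 / 4)) := Real.exp_le_exp.2 (by linarith))
      (by
        rw [hrp]
        calc ((K : ℝ) + 5) ^ (K + 1) * 2 ^ K ≤ ((K : ℝ) + 5) ^ (K + 1) * 2 ^ (K + 1) := by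
              gcongr
              · norm_num
              · omega
          _ = (2 * ((K : ℝ) + 5)) ^ (K + 1) := by rw [← mul_pow]; ring
          _ ≤ Real.exp (L / 12) := hpow
          _ = Real.exp (L * (1 / 12)) := by congr 1; ring)
      (by
        rw [hrp]
        calc (2 : ℝ) = Real.exp (Real.log 2) := (Real.exp_log (by norm_num)).symm
          _ ≤ Real.exp (L * (1 / 6)) := by
            apply Real.exp_le_exp.2
            have := Real.log_two_lt_d9
            linarith)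
      (by
        rw [hrp]
        calc (17 : ℝ) = Real.exp (Real.log 17) := (Real.exp_log (by norm_num)).symm
          _ ≤ Real.exp (L * (1 / 12 * (1 / 2 : ℝ) ^ K)) := by
            apply Real.exp_le_exp.2
            have h5 : Real.log 17 ≤ 3 := by
              rw [Real.log_le_iff_le_exp (by norm_num)]
              have h6 := Real.exp_one_gt_d9
              have h7 : Real.exp 3 = Real.exp 1 ^ 3 := by rw [← Real.exp_nat_mul]; norm_num
              rw [h7]
              calc (17 : ℝ) ≤ 2.7 ^ 3 := by norm_num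
                _ ≤ Real.exp 1 ^ 3 := pow_le_pow_left₀ (by norm_num) (by linarith) 3
            have h6 : (1 / 2 : ℝ) ^ K = 1 / 2 ^ K := by rw [div_pow, one_pow]
            rw [h6]
            have h7 : 36 * (2 : ℝ) ^ K ≤ L := by
              calc 36 * (2 : ℝ) ^ K ≤ 72 * ℓ ^ (0.35 : ℝ) := by linarith
                _ ≤ 4 * ℓ / lam := by
                  rw [le_div_iff₀ hlam0]
                  calc 72 * ℓ ^ (0.35 : ℝ) * lam = 4 * ((18 * lam) * ℓ ^ (0.35 : ℝ)) := by ring
                    _ ≤ 4 * (ℓ ^ (0.65 : ℝ) * ℓ ^ (0.35 : ℝ)) := by gcongr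
                    _ = 4 * ℓ := by rw [hsplit]
                _ ≤ L := hL1
            have h8 : (0 : ℝ) < 2 ^ K := by positivity
            have h9 : L * (1 / 12 * (1 / 2 ^ K)) = L / (12 * 2 ^ K) := by
              field_simp
            rw [h9]
            refine h5.trans ?_
            rw [le_div_iff₀ (by positivity)]
            linarith)
      (y := y) hc.le (by
        rw [hrp]
        have h1 : y ≤ t := by
          rw [hy]
          apply div_le_self ht0.le
          linarith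
        refine h1.trans ?_
        have h2 : t = Real.exp ℓ := (Real.exp_log ht0).symm
        calc t = Real.exp ℓ := h2
          _ ≤ Real.exp (L * ((K : ℝ) / 2 + 3 / 4)) := by
            apply Real.exp_le_exp.2
            rw [div_le_iff₀ hLpos] at hKge
            nlinarith) N a ha haN
    refine hW.trans ?_
    apply Real.rpow_le_rpow_of_exponent_le (by exact_mod_cast hQN1)
    have h1 : (1 / 2 : ℝ) ^ K = 1 / 2 ^ K := by rw [div_pow, one_pow]
    rw [h1, Real.rpow_neg hℓ0.le]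
    have h2 : 4 * (2 : ℝ) ^ K ≤ ℓ ^ (1 / 2 : ℝ) := by
      calc 4 * (2 : ℝ) ^ K ≤ 8 * ℓ ^ (0.35 : ℝ) := by linarith
        _ ≤ ℓ ^ (0.15 : ℝ) * ℓ ^ (0.35 : ℝ) := by gcongr
        _ = ℓ ^ (1 / 2 : ℝ) := hsplit2
    have h3 : (ℓ ^ (1 / 2 : ℝ))⁻¹ ≤ 1 / 4 * (1 / 2 ^ K) := by
      rw [← one_div, div_le_iff₀ (by positivity)]
      have h8 : (0 : ℝ) < 2 ^ K := by positivity
      calc (1 : ℝ) = 1 / 4 * (1 / 2 ^ K) * (4 * 2 ^ K) := by field_simp
        _ ≤ 1 / 4 * (1 / 2 ^ K) * ℓ ^ (1 / 2 : ℝ) := by gcongr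
    linarith

end Pool.Agent.Helper85.PR
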